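import Pool.Agent.Work.MP_727c87_gt_helper49.Main

/-!
# MP_727c87_gt: Urysohn 1-width of a quotient and of its simply connected cover

Let `M = X / Γ`, where `X` is a proper geodesic simply connected metric space and `Γ` acts on `X`
by isometries (for instance `X` is the universal cover of a closed Riemannian manifold `M` and `Γ`
is the deck group). We prove

  `UW_1(M) ≤ 1328 (b_1 + 1) UW_1(X)`,  where `b_1 = dim Hom(Γ, ℚ)`,

with no restriction on the dimension. So `UW_1(M) / UW_1(X)` is bounded by an absolute constant as
long as the first Betti number is bounded; it is at most `1328` if `b_1 = 0`.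

The proof (files `Cross`, `Square`, `Pot`, `Ext`, `Hom`, `Pack`, `Main` of
`Pool/Agent/Work/MP_727c87_gt_helper49`): suppose that all fibres of a map from `X` to a graph have
diameter at most `C`.
* A null-homotopic loop of `X` whose image under a `1`-Lipschitz map `p : X → ℝ²` stays outside a
  large ball around `0` (radius `> 3C`) has winding number `0` around `0` (`square`); hence the
  signed crossing number with a ray has a potential far from `p = 0` (`exists_pot`).
* If `p` is `Γ`-invariant, this potential gives a homomorphism `Γ → ℤ` which computes the crossing
  numbers (with the ray) of the loops of `M` that stay far from `p = 0` (`exists_hom`).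
* If a component of an annulus around a base point of `M` contained `n + 1` points which are far
  from each other, we would get `n` homomorphisms `Γ → ℤ` and `n` dual elements of `Γ`, so
  `n ≤ b_1` (`pack`). So these components have diameter at most `1328 (b_1 + 1) C`; the nerve of
  the covering by these components is a graph.
-/

namespace Pool.Agent.Results.MP_727c87_gt.BoundedBetti

open UW727

universe u v w

/-- **Theorem.** `UW_1(X/Γ) ≤ 1328 (b + 1) UW_1(X)` whenever `dim_ℚ Hom(Γ, ℚ) ≤ b`, for every
isometric action of a group `Γ` on a proper geodesic simply connected space `X`; here `M` is any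
metric space that is the metric quotient of `X` by `Γ`. If `M` is compact, the bound holds for the
width of `M` computed with finite complexes only. -/
theorem result {X : Type u} {M : Type v} {Γ : Type w} [MetricSpace X] [ProperSpace X]
    [SimplyConnectedSpace X] (hX : IsGeodesic X) [Group Γ] [MulAction Γ X] [IsIsometricSMul Γ X]
    [MetricSpace M] (π : X → M) (hπ : Function.Surjective π)
    (hdist : ∀ x y : X, dist (π x) (π y) = ⨅ γ : Γ, dist x (γ • y))
    (b : ℕ) (hb : Module.rank ℚ (Additive Γ →+ ℚ) ≤ b) :
    urysohnWidth 1 M ≤ 1328 * (b + 1) * urysohnWidth 1 X ∧
      (CompactSpace M → urysohnWidthFin 1 M ≤ 1328 * (b + 1) * urysohnWidth 1 X) :=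
  main hX π hπ hdist b hb

end Pool.Agent.Results.MP_727c87_gt.BoundedBetti
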