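import Pool.Agent.Work.MP_727c87_cx.AllFinal

/-!
# Urysohn 1-width of closed 3-manifolds and of their universal covers

There is a constant `C` such that for every `L` there is a closed Riemannian `3`-manifold `M` with
`UW_1(M) ≥ L` whose universal cover has `UW_1 ≤ C`.
-/

namespace Pool.Agent.Results.MP_727c87_gt.UniversalCoverWidth

open scoped ENNReal NNReal
open UW727
open Pool.Agent.Work.MP_bc4532_gt (ClosedRiemannianManifold)

/-- There is a constant `C` such that for every `L` there is a closed Riemannian `3`-manifold `M`
with `UW_1(M) ≥ L` which has a universal Riemannian covering and such that every universal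
Riemannian covering `X` of `M` satisfies `UW_1(X) ≤ C`; both inequalities hold for the metric
topology and for the weak topology on the simplicial complexes in the definition of `UW_1`. -/
theorem result :
    ∃ C : ℝ≥0, ∀ L : ℝ≥0, ∃ M : ClosedRiemannianManifold,
      Module.finrank ℝ M.E = 3 ∧
      (L : ℝ≥0∞) ≤ urysohnWidth 1 M.Pt ∧ (L : ℝ≥0∞) ≤ urysohnWidthW 1 M.Pt ∧
      Nonempty (RiemannianUniversalCover M) ∧
      ∀ X : RiemannianUniversalCover M,
        urysohnWidth 1 X.Pt ≤ C ∧ urysohnWidthW 1 X.Pt ≤ C :=
  Pool.CX.final

end Pool.Agent.Results.MP_727c87_gt.UniversalCoverWidth
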